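import Pool.Agent.helper5.PR.SpecK

/-!
Project pr:, module K-CMP: comparison of two representations over two fields at a common prime.
-/

set_option autoImplicit false

namespace Pool.Agent.PR

open Matrix

theorem K_CMP_rat {E Ω : Type} [Field E] [CharZero E] [Field Ω] [CharZero Ω] (S : Finset E)
    (σ : Algebra.adjoin ℤ (S : Set E) →+* Ω) (c : Algebra.adjoin ℤ (S : Set E)) (q : ℚ)
    (h : (c : E) = (q : E)) : σ c = (q : Ω) := by
  have hd : (q.den : E) ≠ 0 := Nat.cast_ne_zero.mpr q.den_ne_zero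
  have hd' : (q.den : Ω) ≠ 0 := Nat.cast_ne_zero.mpr q.den_ne_zero
  have h1 : ((q.den : ℕ) : Algebra.adjoin ℤ (S : Set E)) * c = ((q.num : ℤ) : Algebra.adjoin ℤ (S : Set E)) := by
    apply Subtype.ext
    have h2 : ((q.den : ℕ) : E) * (c : E) = ((q.num : ℤ) : E) := by
      rw [h, Rat.cast_def, mul_div_cancel₀ _ hd]
    push_cast
    exact h2
  have h3 : ((q.den : ℕ) : Ω) * σ c = ((q.num : ℤ) : Ω) := by
    have h4 := congrArg σ h1
    rw [map_mul, map_natCast, map_intCast] at h4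
    exact h4
  rw [Rat.cast_def, eq_div_iff hd', mul_comm]
  exact h3

theorem K_CMP_tr {n : ℕ} {Λ : Type} [Group Λ] {E Ω : Type} [Field E] [CharZero E] [Field Ω]
    [CharZero Ω] (S : Finset E) (ρ : Λ →* GL (Fin n) E)
    (hS : ∀ l i j, (ρ l : Matrix (Fin n) (Fin n) E) i j ∈ Algebra.adjoin ℤ (S : Set E))
    (σ : Algebra.adjoin ℤ (S : Set E) →+* Ω) (r : Λ →* GL (Fin n) Ω)
    (hr : ∀ l i j (h : (ρ l : Matrix (Fin n) (Fin n) E) i j ∈ Algebra.adjoin ℤ (S : Set E)),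
      (r l : Matrix (Fin n) (Fin n) Ω) i j = σ ⟨_, h⟩) (l : Λ) (q : ℚ)
    (hq : (ρ l : Matrix (Fin n) (Fin n) E).trace = (q : E)) :
    (r l : Matrix (Fin n) (Fin n) Ω).trace = (q : Ω) := by
  have h1 : (r l : Matrix (Fin n) (Fin n) Ω).trace =
      σ (∑ i, ⟨(ρ l : Matrix (Fin n) (Fin n) E) i i, hS l i i⟩) := by
    rw [Matrix.trace, map_sum]
    refine Finset.sum_congr rfl (fun i _ => ?_)
    rw [Matrix.diag_apply]
    exact hr l i i (hS l i i)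
  rw [h1]
  apply K_CMP_rat
  rw [← hq, Matrix.trace]
  push_cast
  rfl

theorem K_CMP (hAC : K_AC_stmt) (hEMB : K_EMB_stmt) (hBC : K_BC_stmt) (hRAT : K_RAT_stmt) :
    K_CMP_stmt := by
  intro n hn Λ _ hFG hQ E E' _ _ _ _ ρ ρ' hinf hinf'
  have h1 := hRAT n hn Λ hFG hQ E ρ hinf
  have h2 := hRAT n hn Λ hFG hQ E' ρ' hinf'
  choose t ht using h1
  choose t' ht' using h2
  refine ⟨t, ht, ?_⟩
  obtain ⟨S, hS, hbc⟩ := hBC n Λ hFG E ρ
  obtain ⟨S', hS', hbc'⟩ := hBC n Λ hFG E' ρ'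
  obtain ⟨N, hN, hemb⟩ := (hEMB E S).1
  obtain ⟨N', hN', hemb'⟩ := (hEMB E' S').1
  obtain ⟨ℓ, hℓ, hprime⟩ := Nat.exists_infinite_primes (N + N' + 1)
  haveI : Fact ℓ.Prime := ⟨hprime⟩
  have hd : ¬ ℓ ∣ N := fun h => by
    have := Nat.le_of_dvd (Nat.pos_of_ne_zero hN) h
    omega
  have hd' : ¬ ℓ ∣ N' := fun h => by
    have := Nat.le_of_dvd (Nat.pos_of_ne_zero hN') h
    omega
  obtain ⟨σ, hσ1, hσ2⟩ := hemb ℓ hd
  obtain ⟨σ', hσ1', hσ2'⟩ := hemb' ℓ hd'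
  obtain ⟨r, hr, hrinf⟩ := hbc (Om ℓ) σ hσ1
  obtain ⟨r', hr', hrinf'⟩ := hbc' (Om ℓ) σ' hσ1'
  haveI : CharZero (Om ℓ) := charZero_of_injective_algebraMap (algebraMap ℚ_[ℓ] (Om ℓ)).injective
  have htr : ∀ l, (r l : Matrix (Fin n) (Fin n) (Om ℓ)).trace = ((t l : ℚ) : Om ℓ) :=
    fun l => K_CMP_tr S ρ hS σ r hr l (t l) (ht l)
  have htr' : ∀ l, (r' l : Matrix (Fin n) (Fin n) (Om ℓ)).trace = ((t' l : ℚ) : Om ℓ) :=
    fun l => K_CMP_tr S' ρ' hS' σ' r' hr' l (t' l) (ht' l)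
  have hac := (hAC ℓ n hn Λ hFG hQ r r' (fun l i j => by rw [hr l i j (hS l i j)]; exact hσ2 _)
    (fun l i j => by rw [hr' l i j (hS' l i j)]; exact hσ2' _) (hrinf hinf) (hrinf' hinf')).2
  rcases hac with h | h
  · left
    intro l
    have h3 := h l
    rw [htr, htr'] at h3
    have h4 : t l = t' l := Rat.cast_injective h3
    rw [ht' l, h4]
  · right
    intro l
    have h3 := h l⁻¹
    rw [inv_inv, htr, htr'] at h3
    have h4 : t l⁻¹ = t' l := Rat.cast_injective h3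
    rw [ht' l, h4]

end Pool.Agent.PR
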