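import Pool.Agent.helper5.PR.SpecS
import Pool.Agent.helper48.PR.Base

/-!
# Module S-EXB of project pr: the commutator group of the extension
-/

set_option autoImplicit false

namespace Pool.Agent.PR

open Matrix
open scoped commutatorElement

/-- `SL(n, ℤ)` is perfect. -/
theorem S_EXB_perf (n : ℕ) (hn : 3 ≤ n) : commutator (SLZ n) = ⊤ := by
  apply el_gen
  intro i j hij
  obtain ⟨k, hki, hkj⟩ : ∃ k : Fin n, k ≠ i ∧ k ≠ j := by
    have h1 : ({i, j} : Finset (Fin n)).card < Fintype.card (Fin n) := by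
      rw [Fintype.card_fin]
      exact lt_of_le_of_lt Finset.card_le_two (by omega)
    obtain ⟨k, hk⟩ : ∃ k, k ∉ ({i, j} : Finset (Fin n)) := by
      by_contra hcon
      push Not at hcon
      have h2 : ({i, j} : Finset (Fin n)) = Finset.univ := by
        ext k
        simp only [Finset.mem_univ, iff_true]
        exact hcon k
      rw [h2, Finset.card_univ] at h1
      exact lt_irrefl _ h1
    refine ⟨k, ?_, ?_⟩
    · intro h
      exact hk (by rw [h]; exact Finset.mem_insert_self _ _)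
    · intro h
      exact hk (by rw [h]; exact Finset.mem_insert_of_mem (Finset.mem_singleton_self _))
  have h1 := el_commutator (n := n) (i := i) (j := k) (l := j) hki.symm hkj hij 1 1
  have h2 : el i j hij 1 = ⁅el i k hki.symm 1, el k j hkj 1⁆ := by
    rw [commutatorElement_def, h1]
    group
  rw [h2, commutator_def]
  exact Subgroup.commutator_mem_commutator (Subgroup.mem_top _) (Subgroup.mem_top _)

/-- a finite commutative quotient of `L` is trivial -/
theorem S_EXB_quot (n : ℕ) (hn : 3 ≤ n) (L : Type) [Group L] (S : Sys (SLZ n) L) (Q : Type)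
    [CommGroup Q] [Finite Q] (f : L →* Q) (l : L) : f l = 1 := by
  classical
  have hfi : f.ker.FiniteIndex := inferInstance
  let K : FiniteIndexNormalSubgroup L := FiniteIndexNormalSubgroup.ofSubgroup f.ker
  have hK : K.toSubgroup = f.ker := rfl
  let φ : SLZ n →* Q := (QuotientGroup.kerLift f).comp (S.g K)
  have h1 : ∀ γ, φ γ = 1 := by
    intro γ
    have h2 : γ ∈ commutator (SLZ n) := by
      rw [S_EXB_perf n hn]
      exact Subgroup.mem_top _
    exact Abelianization.commutator_subset_ker φ h2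
  obtain ⟨γ, hγ⟩ := S.surj K (l : L ⧸ K.toSubgroup)
  have h3 := h1 γ
  have h4 : φ γ = QuotientGroup.kerLift f (S.g K γ) := rfl
  rw [h4, hγ] at h3
  exact h3

/-- `L` is perfect. -/
theorem S_EXB_perfL (n : ℕ) (hn : 3 ≤ n) (L : Type) [Group L] (hL : Group.FG L)
    (S : Sys (SLZ n) L) : commutator L = ⊤ := by
  classical
  have hfg : Group.FG (Abelianization L) :=
    Group.fg_of_surjective (f := (Abelianization.of : L →* Abelianization L))
      (QuotientGroup.mk_surjective)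
  have hfin : Module.Finite ℤ (Additive (Abelianization L)) := by
    rw [Module.Finite.iff_addGroup_fg]
    exact (GroupFG.iff_add_fg).1 hfg
  -- the quotient by `2 A`
  let I : Ideal ℤ := Ideal.span {2}
  let N : Submodule ℤ (Additive (Abelianization L)) := I • ⊤
  have hNtor : Module.IsTorsion ℤ (Additive (Abelianization L) ⧸ N) := by
    intro x
    obtain ⟨y, rfl⟩ := Submodule.Quotient.mk_surjective N x
    refine ⟨⟨2, mem_nonZeroDivisors_of_ne_zero (by norm_num)⟩, ?_⟩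
    show (2 : ℤ) • (Submodule.Quotient.mk y : Additive (Abelianization L) ⧸ N) = 0
    rw [← Submodule.Quotient.mk_smul, Submodule.Quotient.mk_eq_zero]
    exact Submodule.smul_mem_smul (Ideal.subset_span rfl) (Submodule.mem_top)
  have hNfin : Finite (Additive (Abelianization L) ⧸ N) := Module.finite_of_fg_torsion _ hNtor
  have hN : ∀ y : Additive (Abelianization L), y ∈ N := by
    intro y
    obtain ⟨l, hl⟩ := QuotientGroup.mk_surjective (s := commutator L) (Additive.toMul y)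
    let f : L →* Multiplicative (Additive (Abelianization L) ⧸ N) :=
      (AddMonoidHom.toMultiplicative (N.mkQ.toAddMonoidHom)).comp
        ((MulEquiv.refl (Abelianization L)).toMonoidHom.comp Abelianization.of)
    have hfQ : Finite (Multiplicative (Additive (Abelianization L) ⧸ N)) := hNfin
    have h1 := S_EXB_quot n hn L S _ f l
    have h2 : (Submodule.Quotient.mk (Additive.ofMul (Abelianization.of l)) :
        Additive (Abelianization L) ⧸ N) = 0 := h1
    rw [Submodule.Quotient.mk_eq_zero] at h2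
    have h3 : y = Additive.ofMul (Abelianization.of l) := by
      have h4 : Additive.toMul y = Abelianization.of l := hl.symm
      rw [← h4]
      rfl
    rw [h3]
    exact h2
  obtain ⟨r, hr1, hr2⟩ := Submodule.exists_sub_one_mem_and_smul_eq_zero_of_fg_of_le_smul I
    (⊤ : Submodule ℤ (Additive (Abelianization L))) Module.Finite.fg_top (fun y _ => hN y)
  have hr0 : r ≠ 0 := by
    rintro rfl
    rw [Ideal.mem_span_singleton] at hr1
    norm_num at hr1
  have htor : Module.IsTorsion ℤ (Additive (Abelianization L)) := by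
    intro x
    exact ⟨⟨r, mem_nonZeroDivisors_of_ne_zero hr0⟩, hr2 x Submodule.mem_top⟩
  have hfin2 : Finite (Additive (Abelianization L)) := Module.finite_of_fg_torsion _ htor
  have hfin3 : Finite (Abelianization L) := hfin2
  rw [eq_top_iff]
  intro l _
  have h1 := S_EXB_quot n hn L S (Abelianization L) Abelianization.of l
  rw [← Abelianization.ker_of L]
  exact h1

/-- commutators do not change under central factors -/
theorem S_EXB_comm {G : Type} [Group G] (z z' b b' : G) (hz : ∀ g, z * g = g * z)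
    (hz' : ∀ g, z' * g = g * z') : ⁅z * b, z' * b'⁆ = ⁅b, b'⁆ := by
  have e1 : ∀ g, z⁻¹ * g = g * z⁻¹ := by
    intro g
    have h := hz (z⁻¹ * g * z⁻¹)
    calc z⁻¹ * g = z⁻¹ * g * z⁻¹ * z := by group
      _ = z * (z⁻¹ * g * z⁻¹) := h.symm
      _ = g * z⁻¹ := by group
  calc ⁅z * b, z' * b'⁆ = z * b * z' * b' * b⁻¹ * z⁻¹ * b'⁻¹ * z'⁻¹ := by
        rw [commutatorElement_def]
        group
    _ = z * b * z' * b' * b⁻¹ * (z⁻¹ * b'⁻¹) * z'⁻¹ := by group
    _ = z * b * z' * b' * b⁻¹ * (b'⁻¹ * z⁻¹) * z'⁻¹ := by rw [e1 b'⁻¹]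
    _ = z * (b * (z' * (b' * b⁻¹ * b'⁻¹)) * (z⁻¹ * z'⁻¹)) := by group
    _ = z * (b * ((b' * b⁻¹ * b'⁻¹) * z') * (z⁻¹ * z'⁻¹)) := by rw [hz' (b' * b⁻¹ * b'⁻¹)]
    _ = z * (b * (b' * b⁻¹ * b'⁻¹) * (z' * (z⁻¹ * z'⁻¹))) := by group
    _ = z * (b * (b' * b⁻¹ * b'⁻¹) * ((z⁻¹ * z'⁻¹) * z')) := by rw [hz' (z⁻¹ * z'⁻¹)]
    _ = z * ((b * (b' * b⁻¹ * b'⁻¹)) * z⁻¹) := by group
    _ = ((b * (b' * b⁻¹ * b'⁻¹)) * z⁻¹) * z := hz _
    _ = ⁅b, b'⁆ := by
        rw [commutatorElement_def]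
        group

/-- an extension of a finitely generated group by a finite group -/
theorem S_EXB_fg {G L : Type} [Group G] [Group L] (hL : Group.FG L) (π : G →* L)
    (hπ : Function.Surjective π) (hk : Finite π.ker) : Group.FG G := by
  classical
  obtain ⟨T, hT⟩ := Group.fg_iff.1 hL
  obtain ⟨hT, hTf⟩ := hT
  choose s hs using hπ
  refine Group.fg_iff.2 ⟨s '' T ∪ (π.ker : Set G), ?_, (hTf.image s).union (Set.toFinite _)⟩
  rw [eq_top_iff]
  intro x _
  have h1 : (Subgroup.closure (s '' T ∪ (π.ker : Set G))).map π = ⊤ := by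
    rw [eq_top_iff, ← hT, Subgroup.closure_le]
    intro t ht
    exact ⟨s t, Subgroup.subset_closure (Or.inl ⟨t, ht, rfl⟩), hs t⟩
  have h2 : π x ∈ (Subgroup.closure (s '' T ∪ (π.ker : Set G))).map π := by
    rw [h1]
    exact Subgroup.mem_top _
  obtain ⟨w, hw, hwx⟩ := h2
  have h3 : w⁻¹ * x ∈ Subgroup.closure (s '' T ∪ (π.ker : Set G)) := by
    apply Subgroup.subset_closure
    right
    show w⁻¹ * x ∈ π.ker
    rw [MonoidHom.mem_ker, map_mul, map_inv, hwx, inv_mul_cancel]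
  have h4 : x = w * (w⁻¹ * x) := by group
  rw [h4]
  exact Subgroup.mul_mem _ hw h3

/-- the commutator subgroup maps onto a perfect quotient and has finite index if the kernel is finite -/
theorem S_EXB_onto {G L : Type} [Group G] [Group L] (hL : commutator L = ⊤) (π : G →* L)
    (hπ : Function.Surjective π) (l : L) : ∃ x ∈ commutator G, π x = l := by
  have h1 : (commutator G).map π = ⊤ := by
    rw [commutator_def, Subgroup.map_commutator, Subgroup.map_top_of_surjective π hπ, ← commutator_def,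
      hL]
  have h2 : l ∈ (commutator G).map π := by
    rw [h1]
    exact Subgroup.mem_top _
  exact h2

theorem S_EXB_index {G L : Type} [Group G] [Group L] (hL : commutator L = ⊤) (π : G →* L)
    (hπ : Function.Surjective π) (hk : Finite π.ker) : (commutator G).FiniteIndex := by
  have h1 : Function.Surjective (fun x : π.ker => ((x : G) : G ⧸ commutator G)) := by
    intro y
    obtain ⟨y, rfl⟩ := QuotientGroup.mk_surjective y
    obtain ⟨w, hw, hwy⟩ := S_EXB_onto hL π hπ (π y)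
    refine ⟨⟨w⁻¹ * y, ?_⟩, ?_⟩
    · rw [MonoidHom.mem_ker, map_mul, map_inv, hwy, inv_mul_cancel]
    · show ((w⁻¹ * y : G) : G ⧸ commutator G) = (y : G ⧸ commutator G)
      rw [QuotientGroup.mk_mul, (QuotientGroup.eq_one_iff (w⁻¹ : G)).2 ((commutator G).inv_mem hw), one_mul]
  have h2 : Finite (G ⧸ commutator G) := Finite.of_surjective _ h1
  exact Subgroup.finiteIndex_of_finite_quotient

/-- residual finiteness of subgroups of `L × GL(n, ℤ_p)` -/
theorem S_EXB_rf (n : ℕ) (L : Type) [Group L] (hL : RF L) (p : ℕ) [Fact p.Prime] (G : Type)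
    [Group G] (f : G →* L × GL (Fin n) ℤ_[p]) (hf : Function.Injective f) : RF G := by
  classical
  intro g hg
  have h1 : f g ≠ 1 := fun h => hg (hf (by rw [h, map_one]))
  by_cases h2 : (f g).1 = 1
  · have h3 : (f g).2 ≠ 1 := fun h => h1 (Prod.ext h2 h)
    have h4 : ∃ i j, (((f g).2 : GL (Fin n) ℤ_[p]) : Matrix (Fin n) (Fin n) ℤ_[p]) i j ≠
        (1 : Matrix (Fin n) (Fin n) ℤ_[p]) i j := by
      by_contra hcon
      push Not at hcon
      apply h3
      apply Units.ext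
      ext i j
      rw [hcon i j]
      rfl
    obtain ⟨i, j, hij⟩ := h4
    obtain ⟨k, hk⟩ : ∃ k, PadicInt.toZModPow k
        ((((f g).2 : GL (Fin n) ℤ_[p]) : Matrix (Fin n) (Fin n) ℤ_[p]) i j) ≠
        PadicInt.toZModPow k ((1 : Matrix (Fin n) (Fin n) ℤ_[p]) i j) := by
      by_contra hcon
      push Not at hcon
      exact hij (PadicInt.ext_of_toZModPow.1 hcon)
    have hp0 : NeZero (p ^ k) := ⟨pow_ne_zero _ (Fact.out : p.Prime).ne_zero⟩
    let F : G →* GL (Fin n) (ZMod (p ^ k)) :=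
      ((Matrix.GeneralLinearGroup.map (PadicInt.toZModPow (p := p) k)).comp
        (MonoidHom.snd L (GL (Fin n) ℤ_[p]))).comp f
    have hfi : F.ker.FiniteIndex := inferInstance
    refine ⟨F.ker, hfi.index_ne_zero, ?_⟩
    intro hmem
    apply hk
    have h5 : F g = 1 := hmem
    have h6 := congrArg (fun A : GL (Fin n) (ZMod (p ^ k)) =>
      (A : Matrix (Fin n) (Fin n) (ZMod (p ^ k))) i j) h5
    have h7 : PadicInt.toZModPow k
        ((((f g).2 : GL (Fin n) ℤ_[p]) : Matrix (Fin n) (Fin n) ℤ_[p]) i j) =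
        (1 : Matrix (Fin n) (Fin n) (ZMod (p ^ k))) i j := h6
    rw [h7, Matrix.one_apply, Matrix.one_apply]
    split_ifs <;> simp
  · obtain ⟨H, hH1, hH2⟩ := hL (f g).1 h2
    refine ⟨H.comap ((MonoidHom.fst L (GL (Fin n) ℤ_[p])).comp f), ?_, hH2⟩
    rw [Subgroup.index_comap]
    have hfi : H.FiniteIndex := ⟨hH1⟩
    exact (Subgroup.instFiniteIndex_subgroupOf H
      ((MonoidHom.fst L (GL (Fin n) ℤ_[p])).comp f).range).index_ne_zero

/-- the order of the image grows when the subgroup shrinks -/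
theorem S_EXB_lev {n : ℕ} (hn : 3 ≤ n) {L : Type} [Group L] (S : Sys (SLZ n) L)
    (M M' : FiniteIndexNormalSubgroup L) (h : M ≤ M') : lev hn S M' ∣ lev hn S M := by
  unfold lev
  apply orderOf_dvd_of_pow_eq_one
  have h1 : S.g M (e01 n hn ^ orderOf (S.g M (e01 n hn))) = ((1 : L) : L ⧸ M.toSubgroup) := by
    rw [map_pow, pow_orderOf_eq_one]
    rfl
  have h2 := S.compat M M' h _ _ h1
  rw [map_pow] at h2
  exact h2

/-- congruence of matrices in terms of reduction -/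
theorem S_EXB_MC {n p : ℕ} [Fact p.Prime] (i : ℕ) (A B : Matrix (Fin n) (Fin n) ℤ_[p]) :
    MC (p ^ i) A B ↔ A.map (PadicInt.toZModPow i) = B.map (PadicInt.toZModPow i) := by
  have key : ∀ x : ℤ_[p], ((p ^ i : ℕ) : ℤ_[p]) ∣ x ↔ PadicInt.toZModPow i x = 0 := by
    intro x
    rw [← RingHom.mem_ker, PadicInt.ker_toZModPow, Ideal.mem_span_singleton, Nat.cast_pow]
  constructor
  · intro h
    ext a b
    rw [Matrix.map_apply, Matrix.map_apply]
    have h1 := (key _).1 (h a b)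
    rw [map_sub, sub_eq_zero] at h1
    exact h1
  · intro h a b
    rw [key, map_sub, sub_eq_zero]
    have h1 := congrFun (congrFun h a) b
    exact h1

section red

variable {n : ℕ} {L : Type} [Group L] (S : Sys (SLZ n) L) (p : ℕ) [Fact p.Prime] (i : ℕ)
  (M : FiniteIndexNormalSubgroup L)

/-- reduction of the extension -/
noncomputable def S_EXB_Φ : ExtG S p →* (L ⧸ M.toSubgroup) × GL (Fin n) (ZMod (p ^ i)) :=
  (MonoidHom.prodMap (QuotientGroup.mk' M.toSubgroup)
    (Matrix.GeneralLinearGroup.map (PadicInt.toZModPow (p := p) i))).comp (ExtG S p).subtype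

/-- reduction of `SL(n, ℤ)` -/
noncomputable def S_EXB_Θ : SLZ n →* (L ⧸ M.toSubgroup) × GL (Fin n) (ZMod (p ^ i)) :=
  (S.g M).prod (Matrix.SpecialLinearGroup.toGL.comp
    (Matrix.SpecialLinearGroup.map (Int.castRingHom (ZMod (p ^ i)))))

theorem S_EXB_Φ2 (x : ExtG S p) : ((S_EXB_Φ S p i M x).2 : Matrix (Fin n) (Fin n) (ZMod (p ^ i))) =
    (x.1.2 : Matrix (Fin n) (Fin n) ℤ_[p]).map (PadicInt.toZModPow i) := rfl

theorem S_EXB_Θ2 (γ : SLZ n) : ((S_EXB_Θ S p i M γ).2 : Matrix (Fin n) (Fin n) (ZMod (p ^ i))) =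
    (stdM ℤ_[p] γ).map (PadicInt.toZModPow i) := by
  ext a b
  show (Int.castRingHom (ZMod (p ^ i))) ((γ : Matrix (Fin n) (Fin n) ℤ) a b) =
    PadicInt.toZModPow i ((Int.castRingHom ℤ_[p]) ((γ : Matrix (Fin n) (Fin n) ℤ) a b))
  simp

/-- the comparison with a central factor -/
theorem S_EXB_cent (x : ExtG S p) (γ : SLZ n) (h1 : S.g M γ = (x.1.1 : L ⧸ M.toSubgroup)) (c : ℤ_[p])
    (h2 : MC (p ^ i) (x.1.2 : Matrix (Fin n) (Fin n) ℤ_[p]) (c • stdM ℤ_[p] γ)) :
    ∃ z, (∀ g, z * g = g * z) ∧ S_EXB_Φ S p i M x = z * S_EXB_Θ S p i M γ := by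
  refine ⟨S_EXB_Φ S p i M x * (S_EXB_Θ S p i M γ)⁻¹, ?_, by group⟩
  have e1 : (S_EXB_Φ S p i M x * (S_EXB_Θ S p i M γ)⁻¹).1 = 1 := by
    show (x.1.1 : L ⧸ M.toSubgroup) * (S.g M γ)⁻¹ = 1
    rw [h1, mul_inv_cancel]
  have e2 : (((S_EXB_Φ S p i M x * (S_EXB_Θ S p i M γ)⁻¹).2 : GL (Fin n) (ZMod (p ^ i))) :
      Matrix (Fin n) (Fin n) (ZMod (p ^ i))) = (PadicInt.toZModPow i c) • 1 := by
    have e3 : ((S_EXB_Φ S p i M x).2 : Matrix (Fin n) (Fin n) (ZMod (p ^ i))) =
        (PadicInt.toZModPow i c) • ((S_EXB_Θ S p i M γ).2 : Matrix (Fin n) (Fin n) (ZMod (p ^ i))) := by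
      rw [S_EXB_Φ2, S_EXB_Θ2, (S_EXB_MC i _ _).1 h2]
      ext a b
      simp
    rw [Prod.snd_mul, Units.val_mul, e3, Prod.snd_inv, Matrix.smul_mul, ← Units.val_mul, mul_inv_cancel,
      Units.val_one]
  intro g
  apply Prod.ext
  · show (S_EXB_Φ S p i M x * (S_EXB_Θ S p i M γ)⁻¹).1 * g.1 =
      g.1 * (S_EXB_Φ S p i M x * (S_EXB_Θ S p i M γ)⁻¹).1
    rw [e1, one_mul, mul_one]
  · apply Units.ext
    show (((S_EXB_Φ S p i M x * (S_EXB_Θ S p i M γ)⁻¹).2 : GL (Fin n) (ZMod (p ^ i))) :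
      Matrix (Fin n) (Fin n) (ZMod (p ^ i))) * (g.2 : Matrix (Fin n) (Fin n) (ZMod (p ^ i))) =
      (g.2 : Matrix (Fin n) (Fin n) (ZMod (p ^ i))) *
      (((S_EXB_Φ S p i M x * (S_EXB_Θ S p i M γ)⁻¹).2 : GL (Fin n) (ZMod (p ^ i))) :
      Matrix (Fin n) (Fin n) (ZMod (p ^ i)))
    rw [e2, Matrix.smul_mul, Matrix.mul_smul, one_mul, mul_one]

end red

theorem S_EXB (hEXA : S_EXA_stmt) : S_EXB_stmt := by
  classical
  intro n hn L _ hL hRF S p _ hU
  obtain ⟨A1, A2, A3, A4, A5, A6⟩ := hEXA n hn L S p hU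
  -- the elements of the group
  have hmem : ∀ x ∈ ExtG S p, RelP S p x.1 x.2 := by
    intro x hx
    induction hx using Subgroup.closure_induction with
    | mem x hx => exact hx
    | one => exact A4
    | mul x y _ _ hx hy => exact A2 _ _ _ _ hx hy
    | inv x _ hx => exact A3 _ _ hx
  have hsub : ∀ l X, RelP S p l X → (l, X) ∈ ExtG S p := fun l X h => Subgroup.subset_closure h
  let π : ExtG S p →* L := (MonoidHom.fst L (GL (Fin n) ℤ_[p])).comp (ExtG S p).subtype
  have hπ : Function.Surjective π := by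
    intro l
    obtain ⟨X, hX⟩ := A1 l
    exact ⟨⟨(l, X), hsub l X hX⟩, rfl⟩
  have hscal : ∀ x : ExtG S p, x.1.1 = 1 → ∃ c : ℤ_[p], c ^ n = 1 ∧
      (x.1.2 : Matrix (Fin n) (Fin n) ℤ_[p]) = c • (1 : Matrix (Fin n) (Fin n) ℤ_[p]) := by
    intro x hx
    have h1 := hmem x.1 x.2
    rw [hx] at h1
    exact A5 _ h1
  have hfinset : Set.Finite {x : ExtG S p | x.1.1 = 1} := by
    have hroots : Set.Finite {c : ℤ_[p] | c ^ n = 1} := by
      have h1 : {c : ℤ_[p] | c ^ n = 1} ⊆ ((Polynomial.nthRoots n (1 : ℤ_[p])).toFinset : Set ℤ_[p]) := by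
        intro c hc
        rw [Finset.mem_coe, Multiset.mem_toFinset, Polynomial.mem_nthRoots (by omega)]
        exact hc
      exact (Finset.finite_toSet _).subset h1
    have h2 : Set.Finite ((fun x : ExtG S p => (x.1.2 : Matrix (Fin n) (Fin n) ℤ_[p])) ''
        {x : ExtG S p | x.1.1 = 1}) := by
      refine (hroots.image fun c => c • (1 : Matrix (Fin n) (Fin n) ℤ_[p])).subset ?_
      rintro _ ⟨x, hx, rfl⟩
      obtain ⟨c, hc, hxc⟩ := hscal x hx
      exact ⟨c, hc, hxc.symm⟩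
    refine Set.Finite.of_finite_image h2 ?_
    intro x hx y hy hxy
    apply Subtype.ext
    apply Prod.ext
    · rw [show x.1.1 = 1 from hx, show y.1.1 = 1 from hy]
    · exact Units.ext hxy
  have hker : Finite π.ker := by
    have h1 : (π.ker : Set (ExtG S p)) = {x : ExtG S p | x.1.1 = 1} := by
      ext x
      exact Iff.rfl
    have h2 : Set.Finite (π.ker : Set (ExtG S p)) := by
      rw [h1]
      exact hfinset
    exact h2.to_subtype
  have hperf : commutator L = ⊤ := S_EXB_perfL n hn L hL S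
  refine ⟨fun x => hmem x.1 x.2, ?_, ?_, ?_, hfinset, ?_, ?_, ?_⟩
  · have hfg : Group.FG (ExtG S p) := S_EXB_fg hL π hπ hker
    have hfi : (commutator (ExtG S p)).FiniteIndex := S_EXB_index hperf π hπ hker
    exact Subgroup.fg_of_index_ne_zero _
  · exact S_EXB_rf n L hRF p _ ((ExtG S p).subtype.comp (commutator (ExtG S p)).subtype)
      (fun a b h => Subtype.ext (Subtype.ext h))
  · exact S_EXB_onto hperf π hπ
  · intro x hx y
    obtain ⟨c, _, hxc⟩ := hscal x hx
    apply Subtype.ext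
    apply Prod.ext
    · show x.1.1 * y.1.1 = y.1.1 * x.1.1
      rw [hx, one_mul, mul_one]
    · apply Units.ext
      show (x.1.2 : Matrix (Fin n) (Fin n) ℤ_[p]) * (y.1.2 : Matrix (Fin n) (Fin n) ℤ_[p]) =
        (y.1.2 : Matrix (Fin n) (Fin n) ℤ_[p]) * (x.1.2 : Matrix (Fin n) (Fin n) ℤ_[p])
      rw [hxc, Matrix.smul_mul, Matrix.mul_smul, one_mul, mul_one]
  · intro γ i M
    obtain ⟨M0, hM0⟩ := hU i
    have hin : ∀ γ : SLZ n, ∃ (x : ExtG S p) (z : (L ⧸ M.toSubgroup) × GL (Fin n) (ZMod (p ^ i))),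
        (∀ g, z * g = g * z) ∧ S_EXB_Φ S p i M x = z * S_EXB_Θ S p i M γ := by
      intro γ
      have hlev : p ^ i ∣ lev hn S (M ⊓ M0) := hM0.trans (S_EXB_lev hn S _ _ inf_le_right)
      obtain ⟨l, hl⟩ := QuotientGroup.mk_surjective (s := (M ⊓ M0).toSubgroup) (S.g (M ⊓ M0) γ)
      obtain ⟨X, hX⟩ := A1 l
      obtain ⟨c, hc⟩ := A6 l X i (M ⊓ M0) γ hX hl.symm hlev
      obtain ⟨z, hz, hz2⟩ := S_EXB_cent S p i M ⟨(l, X), hsub l X hX⟩ γ
        (S.compat _ _ inf_le_left γ l hl.symm) c hc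
      exact ⟨_, z, hz, hz2⟩
    have h1 : commutator (SLZ n) ≤
        ((commutator (ExtG S p)).map (S_EXB_Φ S p i M)).comap (S_EXB_Θ S p i M) := by
      rw [commutator_def, Subgroup.commutator_le]
      intro γ₁ _ γ₂ _
      obtain ⟨x₁, z₁, hz₁, e₁⟩ := hin γ₁
      obtain ⟨x₂, z₂, hz₂, e₂⟩ := hin γ₂
      refine ⟨⁅x₁, x₂⁆, Subgroup.commutator_mem_commutator (Subgroup.mem_top _) (Subgroup.mem_top _), ?_⟩
      rw [map_commutatorElement, map_commutatorElement, e₁, e₂, S_EXB_comm _ _ _ _ hz₁ hz₂]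
    have h2 : γ ∈ commutator (SLZ n) := by
      rw [S_EXB_perf n hn]
      exact Subgroup.mem_top _
    obtain ⟨x, hx, hxγ⟩ := h1 h2
    refine ⟨x, hx, ?_, ?_⟩
    · exact (congrArg Prod.fst hxγ).symm
    · rw [S_EXB_MC, ← S_EXB_Θ2 S p i M γ, ← S_EXB_Φ2 S p i M x, hxγ]
  · intro x hx i M
    have h1 : commutator (ExtG S p) ≤ (S_EXB_Θ S p i M).range.comap (S_EXB_Φ S p i M) := by
      rw [commutator_def, Subgroup.commutator_le]
      intro x₁ _ x₂ _
      obtain ⟨_, h3⟩ := hmem x₁.1 x₁.2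
      obtain ⟨γ₁, hγ₁, c₁, hc₁⟩ := h3 i M
      obtain ⟨_, h4⟩ := hmem x₂.1 x₂.2
      obtain ⟨γ₂, hγ₂, c₂, hc₂⟩ := h4 i M
      obtain ⟨z₁, hz₁, e₁⟩ := S_EXB_cent S p i M x₁ γ₁ hγ₁ c₁ hc₁
      obtain ⟨z₂, hz₂, e₂⟩ := S_EXB_cent S p i M x₂ γ₂ hγ₂ c₂ hc₂
      refine ⟨⁅γ₁, γ₂⁆, ?_⟩
      rw [map_commutatorElement, map_commutatorElement, e₁, e₂, S_EXB_comm _ _ _ _ hz₁ hz₂]
    obtain ⟨γ, hγ⟩ := h1 hx
    refine ⟨γ, congrArg Prod.fst hγ, ?_⟩
    rw [S_EXB_MC, ← S_EXB_Θ2 S p i M γ, ← S_EXB_Φ2 S p i M x, hγ]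

end Pool.Agent.PR
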