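import Pool.Agent.helper5.PR.SpecY

/-! Module Y-EMB of project pr: (MP_a2a22c_al). -/

set_option autoImplicit false

namespace Pool.Agent.PR

open Module

/-- the elements acting by the characters `χ₁`, `χ₂` on the two summands -/
def Y_EMB_K0 {K V : Type} [Field K] [AddCommGroup V] [Module K V] {Q : Type} [Group Q]
    (ρ : Q →* Module.End K V) (W₁ W₂ : Submodule K V) (χ₁ χ₂ : Q →* Kˣ) : Subgroup Q where
  carrier := {g | (∀ w ∈ W₁, ρ g w = (χ₁ g : K) • w) ∧ (∀ w ∈ W₂, ρ g w = (χ₂ g : K) • w)}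
  one_mem' := by
    constructor <;> intro w _ <;> simp
  mul_mem' := by
    intro a b ha hb
    constructor
    · intro w hw
      rw [map_mul, Module.End.mul_apply, hb.1 w hw, map_smul, ha.1 w hw, map_mul, Units.val_mul,
        smul_smul, mul_comm]
    · intro w hw
      rw [map_mul, Module.End.mul_apply, hb.2 w hw, map_smul, ha.2 w hw, map_mul, Units.val_mul,
        smul_smul, mul_comm]
  inv_mem' := by
    intro a ha
    constructor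
    · intro w hw
      have h1 : ρ a⁻¹ (ρ a w) = w := by
        rw [← Module.End.mul_apply, ← map_mul, inv_mul_cancel, map_one, Module.End.one_apply]
      rw [ha.1 w hw, map_smul] at h1
      rw [map_inv χ₁]
      calc ρ a⁻¹ w = ((χ₁ a)⁻¹ : Kˣ) • ((χ₁ a : K) • ρ a⁻¹ w) := by
            rw [← Units.smul_def, inv_smul_smul]
        _ = (((χ₁ a)⁻¹ : Kˣ) : K) • w := by rw [h1, Units.smul_def]
    · intro w hw
      have h1 : ρ a⁻¹ (ρ a w) = w := by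
        rw [← Module.End.mul_apply, ← map_mul, inv_mul_cancel, map_one, Module.End.one_apply]
      rw [ha.2 w hw, map_smul] at h1
      rw [map_inv χ₂]
      calc ρ a⁻¹ w = ((χ₂ a)⁻¹ : Kˣ) • ((χ₂ a : K) • ρ a⁻¹ w) := by
            rw [← Units.smul_def, inv_smul_smul]
        _ = (((χ₂ a)⁻¹ : Kˣ) : K) • w := by rw [h1, Units.smul_def]

theorem Y_EMB (hCHAR : Y_CHAR_stmt) (hEIG : Y_EIG_stmt) (hSPLIT : Y_SPLIT_stmt)
    (hGLU : Y_GLU_stmt) : Y_EMB_stmt := by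
  intro K V _ _ _ _ _ _ Q _ hFG hNil hTF ρ hTri hinj x hx
  obtain ⟨W₁, W₂, hc, hI₁, hI₂, hb₁, hb₂⟩ := hSPLIT K V Q hNil ρ hTri x hx
  obtain ⟨v₁, hv₁, hv₁0, χ₁, hχ₁⟩ := hEIG K V Q ρ hTri W₁ hI₁ hb₁
  obtain ⟨v₂, hv₂, hv₂0, χ₂, hχ₂⟩ := hEIG K V Q ρ hTri W₂ hI₂ hb₂
  have hK0 : ∀ g ∈ Y_EMB_K0 ρ W₁ W₂ χ₁ χ₂, ∀ k : ℕ, 0 < k → g ^ k ∈ commutator Q → g = 1 := by
    intro g hg k hk hgk
    by_contra hne
    have hmem : g ^ k ∈ Y_EMB_K0 ρ W₁ W₂ χ₁ χ₂ := Subgroup.pow_mem _ hg k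
    have h1 : χ₁ (g ^ k) = 1 := MonoidHom.mem_ker.mp (Abelianization.commutator_subset_ker χ₁ hgk)
    have h2 : χ₂ (g ^ k) = 1 := MonoidHom.mem_ker.mp (Abelianization.commutator_subset_ker χ₂ hgk)
    have hρ : ρ (g ^ k) = ρ 1 := by
      rw [map_one]
      apply LinearMap.ext
      intro w
      have hw : w ∈ W₁ ⊔ W₂ := by rw [hc.sup_eq_top]; trivial
      obtain ⟨a, ha, b, hb, rfl⟩ := Submodule.mem_sup.mp hw
      rw [map_add, hmem.1 a ha, hmem.2 b hb, h1, h2]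
      simp
    exact hTF g hne k hk (hinj hρ)
  obtain ⟨θ, hθ⟩ := hCHAR K Q hFG (Y_EMB_K0 ρ W₁ W₂ χ₁ χ₂) hK0
  exact hGLU K V Q ρ W₁ W₂ hc hI₁ hI₂ v₁ v₂ χ₁ χ₂ θ hv₁ hv₂ hv₁0 hv₂0 hχ₁ hχ₂
    (fun g h1 h2 h3 => hθ g ⟨h1, h2⟩ h3)

end Pool.Agent.PR
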